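import Pool.Agent.U74.LN.Two

/-!
# The Bass trace conjecture: graphs of subgroups of `GL_2` with arbitrary abelian edge groups

`C` is a class of groups with the closure properties `ClosedE C`, which contains the metabelian groups and
satisfies `AcylF C` (finitely generated groups with an acylindrical action on a tree with stabilizers in
`C` are in `C`). All this is known for the class of the groups whose wreath products with finite groups
satisfy the K-theoretic Farrell-Jones conjecture with coefficients (Bartels, Lück, Reich, Wegner, Knopf);
this class also contains `GL_m(F)` for all `m` and `F = ℚ`, `F = 𝔽_q(t)` (Rüping), hence for all number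
fields and all function fields of curves over finite fields. The groups of the class satisfy the Bass trace
conjecture over all commutative domains (Bartels, Lück, Reich).

* (1) Let `G` act on a tree with vertex stabilizers in `C`. Let `A v u`, for adjacent vertices `v` and `u`,
  be a subgroup of `G_v`, such that the family is invariant under `G`. An edge stabilizer is large if it has
  more than `k` elements. Suppose that for large edge stabilizers `A v u` is abelian and contains
  `G_{vu}`, and that for large edge stabilizers `G_{va}`, `G_{vb}` with `A v a ≠ A v b` the group
  `G_{va} ∩ G_{vb}` has at most `k` elements (`AEnv`); and let `N_{G_v}(A)/A` be in `C` for `A = A v u`. Then `G`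
  is in `C`. The edge groups are arbitrary subgroups of the groups `A v u`: they need
  not be commensurable, and nothing is assumed about the way in which the `A v u` and `A u v` at the two ends
  are related.
* (2) Let the vertex stabilizers `G_v` be groups of `2 × 2` matrices over fields `F` with all `GL_m(F)` in `C`,
  with at most `k` scalar matrices (`F` depends on the vertex), and let every edge stabilizer be abelian or of
  order at most `k`. Then `G` is in `C`.
* (3) The subgroups of `SL_2(F)` have at most two scalar matrices.

So all fundamental groups of graphs of groups with vertex groups in `SL_2(F_v)` and abelian edge groups are in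
`C`, without any further condition: for example `SL_2(ℚ) *_A SL_2(ℚ)` for all abelian groups `A` and
all embeddings. The edge groups can be infinitely generated, they can be diagonalizable at one end and
unipotent at the other end, and their commensurators can be large and unbalanced. In
characteristic `p` the unipotent edge groups are infinite elementary abelian `p`-groups. For fields `k` of
characteristic `p` and edge groups with elements of order `p` the rings `k[A]` are not regular; so the theorem
of Waldhausen on amalgams and HNN extensions does not apply, and the Bass trace conjecture over
domains of characteristic `p` is new for these groups.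

Outline of the proof. (2) The centralizer of a matrix in `GL_2(F)` which is not scalar is abelian. Let
`A v u` be the centralizer in `G_v` of the edge stabilizer. Different centralizers have only scalar matrices in
common. `N(A)/A` is in `C`, because quotients of linear groups by abelian normal subgroups are in `C`. (1)
Two edges at `v` are equivalent if the groups `A` are equal. The cylinders of this equivalence relation give
a tree on which (the finitely generated subgroups of) `G` act acylindrically. The stabilizer `K` of a
cylinder normalizes the groups `A v u` for the vertices `v` of the cylinder; they generate a normal subgroup of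
`K` which acts on the cylinder with abelian vertex stabilizers; the quotient acts with trivial edge
stabilizers and with the vertex stabilizers `N_{G_v}(A)/A`.
-/

set_option autoImplicit false

namespace Pool.Agent.Results.MP_7903c7_al.AbelianEdgeGroups

open Pool.Agent.Y110.FJ (ClosedE)
open Pool.Agent.N509.TX (AcylF)
open Pool.Agent.N431.CE (Es)
open Pool.Agent.U385.FJ (QC)
open Pool.Agent.U74.LN (Sml AEnv Two)
open Subgroup

/-- `G` acts on the tree `T` by automorphisms -/
def TreeAction (G : Type) {V : Type} [Group G] [MulAction G V] (T : SimpleGraph V) : Prop :=
  T.IsTree ∧ ∀ (g : G) (u v : V), T.Adj u v → T.Adj (g • u) (g • v)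

/-- the stabilizer of the edge `{v, u}` is abelian -/
def AbE (G : Type) {V : Type} [Group G] [MulAction G V] (v u : V) : Prop :=
  ∀ x ∈ Es G v u, ∀ y ∈ Es G v u, x * y = y * x

/-- Let `C` be a class of groups with `ClosedE C` and `AcylF C` which contains the metabelian groups.
(1) Let `G` act on a tree with vertex stabilizers in `C`, such that the edge stabilizers with more than `k`
elements are contained in abelian subgroups `A v u` of the stabilizers of `v` which form an
equivariant family, with `N(A v u)/A v u` in `C`, and such that edge stabilizers at `v` with
different `A` have at most `k` common elements. Then `G` is in `C`. (2) Let `G` act on a tree, such that the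
vertex stabilizers are groups of `2 × 2` matrices with at most `k` scalar matrices and the
edge stabilizers are abelian or have at most `k` elements. Then `G` is in `C`. (3) Subgroups of `SL_2(F)` have
at most two scalar matrices. -/
theorem result (C : ∀ (G : Type) [Group G], Prop) (hC : ClosedE C)
    (hM : ∀ (G : Type) [Group G], derivedSeries G 2 = ⊥ → C G) (hA : AcylF C) :
    (∀ (G V : Type) [Group G] [MulAction G V] (T : SimpleGraph V), TreeAction G T →
      (∀ v : V, C (MulAction.stabilizer G v)) → ∀ (k : ℕ) (A : V → V → Subgroup G), AEnv G T k A →
      (∀ v u : V, T.Adj v u → ¬ Sml G k v u →
        QC C (MulAction.stabilizer G v ⊓ Subgroup.normalizer (A v u : Set G)) (A v u)) → C G) ∧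
    (∀ (G V : Type) [Group G] [MulAction G V] (T : SimpleGraph V), TreeAction G T →
      ∀ k : ℕ, (∀ v : V, Two C k (MulAction.stabilizer G v)) →
      (∀ v u : V, T.Adj v u → AbE G v u ∨ Sml G k v u) → C G) ∧
    (∀ (A F : Type) [Group A] [Field F] (ρ : A →* Matrix.SpecialLinearGroup (Fin 2) F),
      Function.Injective ρ → (∀ m : ℕ, C (Matrix.GeneralLinearGroup (Fin m) F)) → Two C 2 A) := by
  refine ⟨fun G V _ _ T hT hV k A h hQ => ?_, fun G V _ _ T hT k hV hE => ?_,
    fun A F _ _ ρ hρ hF => ?_⟩
  · exact Pool.Agent.U74.LN.ab_main hC hM hA hT.1 hT.2 hV k A h hQ
  · exact Pool.Agent.U74.LN.two_main hC hM hA hT.1 hT.2 k hV hE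
  · exact Pool.Agent.U74.LN.two_sl ρ hρ hF

end Pool.Agent.Results.MP_7903c7_al.AbelianEdgeGroups
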