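import Pool.Agent.U700.BT2

set_option autoImplicit false

open Filter

namespace Pool.Agent.Results.MP_7903c7_al.OrderBound

open Pool.Agent.U700.CP (UP mk mk_mul mk_one mk_eq)
open Pool.Agent.U700.BT (UR isDomain_UR charZero_UR mkR_eq_zero transfer Lin lin_up rp_of_lin)

universe u v

/-- The value at the class of `g` of the Hattori–Stallings rank. -/
noncomputable def rank {R : Type u} [CommRing R] {G : Type v} [Group G] {n : ℕ}
    (A : Matrix (Fin n) (Fin n) (MonoidAlgebra R G)) (g : G) : R :=
  ∑ i : Fin n, ∑ᶠ (h : G) (_ : IsConj h g), (A i i).coeff h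

/-- The Bass trace conjecture for the ring `R` and the group `G`. -/
def BassFor (R : Type u) [CommRing R] (G : Type v) [Group G] : Prop :=
  ∀ (n : ℕ) (A : Matrix (Fin n) (Fin n) (MonoidAlgebra R G)), A * A = A →
    ∀ g : G, ¬ IsUnit ((orderOf g : ℕ) : R) → rank A g = 0

/-- For idempotent matrices of size at most `k` whose entries have at most `k` terms, the rank is
concentrated in the elements of finite order at most `N`. -/
def Bound (R : Type u) [CommRing R] (G : Type v) [Group G] (k N : ℕ) : Prop :=
  ∀ n ≤ k, ∀ A : Matrix (Fin n) (Fin n) (MonoidAlgebra R G), A * A = A →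
    (∀ i j, (A i j).coeff.support.card ≤ k) → ∀ g : G, rank A g ≠ 0 →
      0 < orderOf g ∧ orderOf g ≤ N

theorem rank_eq {R : Type u} [CommRing R] {G : Type v} [Group G] {n : ℕ}
    (A : Matrix (Fin n) (Fin n) (MonoidAlgebra R G)) (g : G) :
    rank A g = Pool.Agent.H26R2.Bass.tau A g := rfl

theorem order_infinite (G : ℕ → Type v) [∀ n, Group (G n)] (U : Ultrafilter ℕ)
    (hU : (U : Filter ℕ) ≤ cofinite) (g : ∀ n, G n) (hg : ∀ n, 0 < orderOf (g n) → n < orderOf (g n)) :
    orderOf (mk g : UP G U) = 0 := by
  rw [orderOf_eq_zero_iff']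
  intro m hm h1
  have h2 : ∀ j : ℕ, (mk g : UP G U) ^ j = mk (fun n => g n ^ j) := by
    intro j
    induction j with
    | zero =>
      rw [pow_zero, ← mk_one]
      congr 1
      funext n
      rw [pow_zero]
      rfl
    | succ j ih =>
      rw [pow_succ, ih, ← mk_mul]
      congr 1
      funext n
      rw [pow_succ]
      rfl
  rw [h2, ← mk_one, mk_eq] at h1
  have h3 : ∀ᶠ n in (U : Filter ℕ), m ≤ n := by
    apply hU
    rw [Nat.cofinite_eq_atTop]
    exact eventually_ge_atTop m
  obtain ⟨n, h4, h5⟩ := (h1.and h3).exists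
  have h6 : orderOf (g n) ∣ m := orderOf_dvd_of_pow_eq_one h4
  have h7 := Nat.le_of_dvd hm h6
  have h8 : 0 < orderOf (g n) := Nat.pos_of_ne_zero fun h => by
    rw [h, zero_dvd_iff] at h6
    omega
  have := hg n h8
  omega

theorem principle (D : (R : Type u) → [CommRing R] → Prop) (C : (G : Type v) → [Group G] → Prop)
    (U : Ultrafilter ℕ) (hU : (U : Filter ℕ) ≤ cofinite)
    (hD : ∀ (R : ℕ → Type u) [∀ n, CommRing (R n)], (∀ n, IsDomain (R n)) → (∀ n, D (R n)) →
      D (UR R U))
    (hC : ∀ (G : ℕ → Type v) [∀ n, Group (G n)], (∀ n, C (G n)) → C (UP G U)) :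
    (∀ (R : Type u) [CommRing R] [IsDomain R], D R → ∀ (G : Type v) [Group G], C G →
      BassFor R G) ↔
    ∀ k, ∃ N, ∀ (R : Type u) [CommRing R] [IsDomain R], D R → ∀ (G : Type v) [Group G], C G →
      Bound R G k N := by
  constructor
  · intro hB k
    have key : ∀ n : ℕ, ∃ N, ∀ (R : Type u) [CommRing R] [IsDomain R], D R →
        ∀ (G : Type v) [Group G], C G →
        ∀ A : Matrix (Fin n) (Fin n) (MonoidAlgebra R G), A * A = A →
        (∀ i j, (A i j).coeff.support.card ≤ k) → ∀ g : G, rank A g ≠ 0 →
          0 < orderOf g ∧ orderOf g ≤ N := by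
      intro n
      by_contra hcon
      push Not at hcon
      choose R i1 i2 h1 G i3 h2 A hA hk g hg hbad using hcon
      obtain ⟨B, hBB, _, hBt⟩ := transfer U n k A hA hk
      have : IsDomain (UR R U) := isDomain_UR
      have h3 : orderOf (mk g : UP G U) = 0 := order_infinite G U hU g hbad
      have h4 := hB (UR R U) (hD R i2 h1) (UP G U) (hC G h2) n B hBB (mk g) (by
        rw [h3, Nat.cast_zero]
        exact not_isUnit_zero)
      rw [rank_eq, hBt, mkR_eq_zero] at h4
      obtain ⟨N, hN⟩ := h4.exists
      exact hg N hN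
    choose N hN using key
    refine ⟨(Finset.range (k + 1)).sup N, ?_⟩
    intro R _ _ hR G _ hG n hn A hA hk g hg
    obtain ⟨h1, h2⟩ := hN n R hR G hG A hA hk g hg
    exact ⟨h1, h2.trans (Finset.le_sup (f := N) (Finset.mem_range.2 (by omega)))⟩
  · intro h R _ _ hR G _ hG n A hA g hg
    by_cases hfin : orderOf g = 0
    · by_contra hne
      classical
      obtain ⟨k, hk1, hk2⟩ : ∃ k, n ≤ k ∧ ∀ i j, (A i j).coeff.support.card ≤ k := by
        refine ⟨n + ∑ i, ∑ j, (A i j).coeff.support.card, by omega, fun i j => ?_⟩
        have h1 : (A i j).coeff.support.card ≤ ∑ j, (A i j).coeff.support.card :=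
          Finset.single_le_sum (f := fun j => (A i j).coeff.support.card)
            (fun _ _ => Nat.zero_le _) (Finset.mem_univ j)
        have h2 : ∑ j, (A i j).coeff.support.card ≤ ∑ i, ∑ j, (A i j).coeff.support.card :=
          Finset.single_le_sum (f := fun i => ∑ j, (A i j).coeff.support.card)
            (fun _ _ => Nat.zero_le _) (Finset.mem_univ i)
        omega
      obtain ⟨N, hN⟩ := h k
      have := (hN R hR G hG n hk1 A hA hk2 g hne).1
      omega
    · rw [rank_eq, Pool.Agent.H26R2.Bass.tau_eq]
      exact Pool.Agent.H26R2.Bass.tf_zero_of_finite A hA g hfin hg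

/-- 1. Let `U` be a nonprincipal ultrafilter on the natural numbers, `D` a class of commutative
domains and `C` a class of groups which are closed under ultraproducts with respect to `U`. Then the
Bass trace conjecture holds for all `R` in `D` and all `G` in `C` if and only if for every `k` there
is a number `N` such that for all `R` in `D`, all `G` in `C` and all idempotent matrices over `R[G]`
of size at most `k` whose entries have at most `k` terms, the rank vanishes at all elements whose
order is infinite or larger than `N`.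
2. In particular, this holds for the class of all commutative domains and the class of all groups.
3. For all `k` and `m` there is a number `N` such that the following holds. Let `B` be a
commutative algebra over the rationals, `G` a group with an injective homomorphism to `GL_m(B)`, and
`R` a commutative domain of characteristic zero. Then for all idempotent matrices over `R[G]` of size
at most `k` whose entries have at most `k` terms, the rank vanishes at all elements whose order is
infinite or larger than `N`. -/
theorem result :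
    (∀ (D : (R : Type u) → [CommRing R] → Prop) (C : (G : Type v) → [Group G] → Prop)
      (U : Ultrafilter ℕ), (U : Filter ℕ) ≤ cofinite →
      (∀ (R : ℕ → Type u) [∀ n, CommRing (R n)], (∀ n, IsDomain (R n)) → (∀ n, D (R n)) →
        D (UR R U)) →
      (∀ (G : ℕ → Type v) [∀ n, Group (G n)], (∀ n, C (G n)) → C (UP G U)) →
      ((∀ (R : Type u) [CommRing R] [IsDomain R], D R → ∀ (G : Type v) [Group G], C G →
        BassFor R G) ↔
      ∀ k, ∃ N, ∀ (R : Type u) [CommRing R] [IsDomain R], D R → ∀ (G : Type v) [Group G], C G →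
        Bound R G k N)) ∧
    ((∀ (R : Type u) [CommRing R] [IsDomain R] (G : Type v) [Group G], BassFor R G) ↔
      ∀ k, ∃ N, ∀ (R : Type u) [CommRing R] [IsDomain R] (G : Type v) [Group G],
        Bound R G k N) ∧
    (∀ k m, ∃ N, ∀ (R : Type u) [CommRing R] [IsDomain R] [CharZero R] (B : Type) [CommRing B]
      [Algebra ℚ B] (G : Type v) [Group G] (f : G →* (Matrix (Fin m) (Fin m) B)ˣ),
      Function.Injective f → Bound R G k N) := by
  refine ⟨?_, ?_, ?_⟩
  · intro D C U hU hD hC
    exact principle D C U hU hD hC
  · have h := principle.{u, v} (fun _ _ => True) (fun _ _ => True) (hyperfilter ℕ)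
      hyperfilter_le_cofinite (fun _ _ _ _ => trivial) (fun _ _ _ => trivial)
    simpa using h
  · intro k m
    have h := principle.{u, v} (fun R _ => CharZero R) (fun G _ => Lin m G) (hyperfilter ℕ)
      hyperfilter_le_cofinite (fun R _ _ h => by have := h; exact charZero_UR)
      (fun G _ h => lin_up m G _ h)
    obtain ⟨N, hN⟩ := h.1 (by
      intro R _ _ hR G _ hG n A hA g hg
      obtain ⟨B, _, _, f, hf⟩ := hG
      refine Pool.Agent.H26R2.Bass.bass_of_local (fun H hH x hx => ?_) A hA g hg
      have hfg : Group.FG H := (Group.fg_iff_subgroup_fg H).2 hH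
      obtain ⟨E, hE⟩ := rp_of_lin hfg (f.comp H.subtype) (hf.comp H.subtype_injective)
      exact Pool.Agent.TH107.LB.good_of_W
        (Pool.Agent.TH107.LB.W.of_RP (Pool.Agent.TH107.LB.Enough.of_finset E hE)) x hx) k
    exact ⟨N, fun R _ _ hR B _ _ G _ f hf => hN R hR G ⟨B, inferInstance, inferInstance, f, hf⟩⟩

end Pool.Agent.Results.MP_7903c7_al.OrderBound
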