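import Pool.Agent.U731.SG.Stable

set_option autoImplicit false

/-!
# The Bass trace conjecture: hermitian support patterns of small spectral span

Let `R` be a commutative domain and `G` any group. The Bass trace conjecture holds for all idempotent
matrices over `RG` which are supported in a hermitian complex matrix with spectrum in an interval of
length at most `3 √2` (off-diagonal coefficients of absolute value at least one, diagonal arbitrary),
and for those whose module is presented by a square matrix of this kind. This applies to all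
hermitian projections whose coefficients have absolute value at least `1 / (3 √2)`, for instance
those with coefficients in `¼ ℤ[i]`. For every larger length each finitely generated projective
module has, after adding a free module, such a presentation.
-/

namespace Pool.Agent.Results.MP_7903c7_al.SymmetricSupportTrace

open ComplexConjugate Matrix

/-- The values of `⟨xS, x⟩` on the unit vectors `x` of `ℓ²(G)^n` with finite support `T` lie in an
interval `[a, a + s]`; for hermitian `S` this says that the spectrum of right multiplication by `S`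
lies in it. -/
def SpanLE {G : Type} [Group G] {n : ℕ} (S : Matrix (Fin n) (Fin n) (MonoidAlgebra ℂ G))
    (s : ℝ) : Prop :=
  ∃ a : ℝ, ∀ (T : Finset (Fin n × G)) (x : Fin n × G → ℂ),
    a * ∑ p ∈ T, ‖x p‖ ^ 2
      ≤ (∑ p ∈ T, ∑ q ∈ T, x p * (S p.1 q.1).coeff (p.2⁻¹ * q.2) * conj (x q)).re ∧
    (∑ p ∈ T, ∑ q ∈ T, x p * (S p.1 q.1).coeff (p.2⁻¹ * q.2) * conj (x q)).re
      ≤ (a + s) * ∑ p ∈ T, ‖x p‖ ^ 2

/-- The support of `M` is contained in the support of a hermitian complex matrix `S` and the
identities on the diagonal; the nonzero coefficients of `S`, except those of the identity on the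
diagonal, have absolute value at least one, and the spectrum of `S` lies in an interval of length
`s`. -/
def SupportSpanLE {R : Type} [Ring R] {G : Type} [Group G] {n : ℕ}
    (M : Matrix (Fin n) (Fin n) (MonoidAlgebra R G)) (s : ℝ) : Prop :=
  ∃ S : Matrix (Fin n) (Fin n) (MonoidAlgebra ℂ G),
    (∀ i j g, (S j i).coeff g⁻¹ = conj ((S i j).coeff g)) ∧
    (∀ i j g, (S i j).coeff g ≠ 0 → (i = j ∧ g = 1) ∨ 1 ≤ ‖(S i j).coeff g‖) ∧
    (∀ i j g, (M i j).coeff g ≠ 0 → (i = j ∧ g = 1) ∨ (S i j).coeff g ≠ 0) ∧ SpanLE S s

/-- The sum `τ_A(g)` of the coefficients of the trace of `A` at the conjugates of `g`. -/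
noncomputable def tau {R : Type} [CommRing R] {G : Type} [Group G] {k : ℕ}
    (A : Matrix (Fin k) (Fin k) (MonoidAlgebra R G)) (g : G) : R :=
  ∑ i : Fin k, ∑ᶠ (h : G) (_ : IsConj h g), (A i i).coeff h

/-- The row space of the idempotent matrix `A` plus a free module of rank `m` is isomorphic to the
cokernel of `M`, that is, `(RG)^n` modulo the rows of `M`. -/
def StablyPresents {R : Type} [Ring R] {G : Type} [Group G] {k n : ℕ}
    (A : Matrix (Fin k) (Fin k) (MonoidAlgebra R G)) (m : ℕ)
    (M : Matrix (Fin n) (Fin n) (MonoidAlgebra R G)) : Prop :=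
  Nonempty (((Fin m → MonoidAlgebra R G) × LinearMap.range A.vecMulLinear) ≃ₗ[MonoidAlgebra R G]
    ((Fin n → MonoidAlgebra R G) ⧸ LinearMap.range M.vecMulLinear))

/-- The image of `A` under the homomorphism `σ` to the complex numbers is hermitian, and its nonzero
coefficients, except those of the identity on the diagonal, have absolute value at least `δ`. -/
def HermitianLarge {R : Type} [Ring R] {G : Type} [Group G] {n : ℕ} (σ : R →+* ℂ)
    (A : Matrix (Fin n) (Fin n) (MonoidAlgebra R G)) (δ : ℝ) : Prop :=
  (∀ i j g, σ ((A j i).coeff g⁻¹) = conj (σ ((A i j).coeff g))) ∧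
  ∀ i j g, (A i j).coeff g ≠ 0 → (i = j ∧ g = 1) ∨ δ ≤ ‖σ ((A i j).coeff g)‖

/-- 1. Let `R` be a commutative domain, `A` an idempotent matrix over `RG` and let `M` be a square
matrix with support span at most `3 √2` which presents the module of `A`, possibly after adding a free
module. Then `τ_A(g) = 0` for all `g` whose order is not invertible in `R`.
2. The same holds if `A` itself has support span at most `3 √2`.
3. The same holds if `R` is embedded in the complex numbers and `A` is hermitian with nonzero
coefficients, except those of the identity on the diagonal, of absolute value at least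
`1 / (3 √2)`.
4. Let `s > 3 √2` and let `S` be a set of additive generators of `R` with `1 ∈ S` and `-S = S`. The
module of every idempotent matrix over `RG` is, after adding a free module, presented by a square
matrix with coefficients in `S ∪ {0}` and support span at most `s`. -/
theorem result :
    (∀ (R : Type) [CommRing R] [IsDomain R] (G : Type) [Group G] (k m n : ℕ)
      (A : Matrix (Fin k) (Fin k) (MonoidAlgebra R G))
      (M : Matrix (Fin n) (Fin n) (MonoidAlgebra R G)) (s : ℝ), A * A = A →
      StablyPresents A m M → SupportSpanLE M s → s ^ 2 ≤ 18 →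
      ∀ g : G, ¬ IsUnit ((orderOf g : ℕ) : R) → tau A g = 0) ∧
    (∀ (R : Type) [CommRing R] [IsDomain R] (G : Type) [Group G] (n : ℕ)
      (A : Matrix (Fin n) (Fin n) (MonoidAlgebra R G)) (s : ℝ), A * A = A →
      SupportSpanLE A s → s ^ 2 ≤ 18 →
      ∀ g : G, ¬ IsUnit ((orderOf g : ℕ) : R) → tau A g = 0) ∧
    (∀ (R : Type) [CommRing R] [IsDomain R] (σ : R →+* ℂ), Function.Injective σ →
      ∀ (G : Type) [Group G] (n : ℕ) (A : Matrix (Fin n) (Fin n) (MonoidAlgebra R G)),
      A * A = A → HermitianLarge σ A (1 / (3 * Real.sqrt 2)) →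
      ∀ g : G, ¬ IsUnit ((orderOf g : ℕ) : R) → tau A g = 0) ∧
    ∀ (R : Type) [CommRing R] [IsDomain R] (S : Set R), (1 : R) ∈ S → (∀ r ∈ S, -r ∈ S) →
      AddSubgroup.closure S = ⊤ → ∀ (G : Type) [Group G] (s : ℝ), 0 < s → 18 < s ^ 2 →
      ∀ (k : ℕ) (A : Matrix (Fin k) (Fin k) (MonoidAlgebra R G)), A * A = A →
      ∃ (m n : ℕ) (M : Matrix (Fin n) (Fin n) (MonoidAlgebra R G)),
        StablyPresents A m M ∧ SupportSpanLE M s ∧
        ∀ i j g, (M i j).coeff g ≠ 0 → (M i j).coeff g ∈ S := by
  refine ⟨?_, ?_, ?_, ?_⟩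
  · rintro R _ _ G _ k m n A M s hA ⟨φ⟩ hM hs g hg
    obtain ⟨ρ, u, C, hC, hst⟩ := U731.SG.smallSpan_vc s hs M hM
    exact U731.SG.bass_stable A hA M ρ u C hC hst φ g hg
  · intro R _ _ G _ n A s hA hM hs g hg
    obtain ⟨ρ, u, C, hC, hst⟩ := U731.SG.smallSpan_vc s hs A hM
    exact U731.SG.bass_struct_idem A hA ρ u C hC hst g hg
  · intro R _ _ σ hσ G _ n A hA h g hg
    have h2 : (0 : ℝ) < Real.sqrt 2 := Real.sqrt_pos.2 (by norm_num)
    have h3 : Real.sqrt 2 ^ 2 = 2 := Real.sq_sqrt (by norm_num)
    refine U731.SG.bass_proj σ hσ A hA h.1 _ (by positivity) h.2 ?_ g hg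
    rw [div_pow, mul_pow, h3]
    norm_num
  · intro R _ _ S h1 h2 h3 G _ s hs0 hs k A hA
    have hP : Module.Projective (MonoidAlgebra R G) (LinearMap.range A.vecMulLinear) := by
      refine Module.Projective.of_split (LinearMap.range A.vecMulLinear).subtype
        A.vecMulLinear.rangeRestrict ?_
      refine LinearMap.ext fun z => ?_
      obtain ⟨_, ⟨x, rfl⟩⟩ := z
      apply Subtype.ext
      change (x ᵥ* A) ᵥ* A = x ᵥ* A
      rw [Matrix.vecMul_vecMul, hA]
    have hfin : Module.Finite (MonoidAlgebra R G) (LinearMap.range A.vecMulLinear) :=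
      Module.Finite.range _
    have hfp : Module.FinitePresentation (MonoidAlgebra R G) (LinearMap.range A.vecMulLinear) :=
      Module.finitePresentation_of_projective _ _
    obtain ⟨m, n, M, h4, h5, h6⟩ := U731.SG.sym_pres ⟨h1, h2, h3⟩ _ hfp s hs0 hs
    exact ⟨m, n, M, h6, h5, h4⟩

end Pool.Agent.Results.MP_7903c7_al.SymmetricSupportTrace
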