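import Pool.Agent.U674.TJ.Tra

/-!
# The Bass trace conjecture is a statement on left ideals generated by trinomials over one group

Let `C` be a class of groups closed under subgroups, direct products, unrestricted wreath products with
the infinite cyclic group and free products with the free group of countable rank, for example the
class of all groups or of the torsion-free groups. There is a group `Γ` in `C` with two generators such
that the Bass trace conjecture for all groups in `C` and all commutative domains is equivalent to its case
for the projective left ideals of `F[Γ]`, `F` a finite field, which are generated by finitely many elements
`1 + a + b` and `1 + a + ζ b`, where `a, b ∈ Γ` and `ζ` generates the field `F`; if `C` contains the finite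
cyclic groups, then the left ideals of `F_p[Γ]` generated by elements `1 + a + b` suffice.

Proof. Let `A` be an idempotent matrix over `F[G]`. Over the group ring of each group `H` which contains the
free product of `G` and a free group of a certain finite rank, the direct sum of the row space of `A` and
a free module is isomorphic to a left ideal generated by trinomials (`main1H`): the module is given by
generators and trinomial relations, and a representation of `G * F_m` by triangular matrices shows that
its relation module embeds in the group ring. The rank at an element of infinite order does not change
if elements of `G` which are conjugate in `H` are conjugate in `G`. For `G` the restricted direct product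
of the largest quotients in `C` of the finitely presented groups let `H` be a two-generator group in `C`
which contains `G * F_ℕ` in this way (B. H. Neumann and H. Neumann). The reduction of the conjecture to
this group `G` and finite fields or prime fields is from `MP_7903c7_al.TestGroups`.
-/

set_option autoImplicit false

namespace Pool.Agent.Results.MP_7903c7_al.TrinomialIdealsTrace

open Pool.Agent.U674.TJ Pool.Agent.U181.TG

/-- Let `C` be a class of groups closed under subgroups, direct products, unrestricted wreath products
with the infinite cyclic group and free products with the free group of countable rank; the classes of
all groups and of all torsion-free groups have these properties. There is a group `Γ` in `C`, generated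
by two elements, such that the conditions `TriFin p Γ`, `p` prime, test the Bass trace conjecture for `C`
and all domains (see `Tests`). If `C` contains the finite cyclic groups, then the conditions
`TriBass p (ZMod p) ∅ Γ` do. -/
theorem result :
    (ClosedSPW (fun _ _ => True) ∧ ClosedSPW (fun G _ => TorsionFree G) ∧
      ∀ (G : Type) [Group G], TorsionFree G → TorsionFree (GF G ℕ)) ∧
      ∀ C : ∀ (G : Type) [Group G], Prop, ClosedSPW C →
        (∀ (G : Type) [Group G], C G → C (GF G ℕ)) →
        ∃ (Γ : Type) (_ : Group Γ) (a b : Γ), C Γ ∧ Subgroup.closure {a, b} = ⊤ ∧
          Tests C (fun p => TriFin p Γ) ∧
          ((∀ n : ℕ, 0 < n → C (Multiplicative (ZMod n))) →
            Tests C (fun p => TriBass p (ZMod p) ∅ Γ)) :=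
  ⟨⟨closedSPW_true, closedSPW_torsionFree, fun _ _ hG => closedF_torsionFree.2 _ hG⟩,
    fun _ hC hF => main_trace hC hF⟩

end Pool.Agent.Results.MP_7903c7_al.TrinomialIdealsTrace
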